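import Mathlib

set_option autoImplicit false
set_option linter.unusedSectionVars false

open Set Topology Filter

namespace Pool.Agent.Helper886.KM

/-- Hereditary indecomposability, in the form: intersecting subcontinua are nested. -/
def HI (X : Type*) [TopologicalSpace X] : Prop :=
  ∀ C D : Set X, IsClosed C → IsClosed D → IsPreconnected C → IsPreconnected D →
    (C ∩ D).Nonempty → C ⊆ D ∨ D ⊆ C

/-- `K` is relatively clopen in the closed set `Y`. -/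
structure Cl {X : Type*} [TopologicalSpace X] (Y K : Set X) : Prop where
  sub : K ⊆ Y
  c1 : IsClosed K
  c2 : IsClosed (Y \ K)

variable {X : Type*} [TopologicalSpace X]

lemma Cl.self {Y : Set X} (hY : IsClosed Y) : Cl Y Y := ⟨subset_rfl, hY, by simp⟩
lemma Cl.empty {Y : Set X} (hY : IsClosed Y) : Cl Y ∅ := ⟨empty_subset _, isClosed_empty, by simpa⟩
lemma Cl.inter {Y K L : Set X} (hK : Cl Y K) (hL : Cl Y L) : Cl Y (K ∩ L) :=
  ⟨inter_subset_left.trans hK.sub, hK.c1.inter hL.c1, by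
    rw [sdiff_inter]; exact hK.c2.union hL.c2⟩
lemma Cl.union {Y K L : Set X} (hK : Cl Y K) (hL : Cl Y L) : Cl Y (K ∪ L) :=
  ⟨union_subset hK.sub hL.sub, hK.c1.union hL.c1, by
    rw [← sdiff_inter_sdiff]; exact hK.c2.inter hL.c2⟩

lemma Cl.image {Y : Set X} (hY : IsClosed Y) {K : Set Y} (hK : IsClopen K) :
    Cl Y ((↑) '' K : Set X) := by
  refine ⟨?_, ?_, ?_⟩
  · rintro _ ⟨x, -, rfl⟩; exact x.2
  · exact hY.isClosedEmbedding_subtypeVal.isClosedMap _ hK.1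
  · have h : Y \ ((↑) '' K : Set X) = ((↑) '' Kᶜ : Set X) := by
      ext x
      constructor
      · rintro ⟨h1, h2⟩
        exact ⟨⟨x, h1⟩, fun h3 => h2 ⟨⟨x, h1⟩, h3, rfl⟩, rfl⟩
      · rintro ⟨y, hy, rfl⟩
        refine ⟨y.2, ?_⟩
        rintro ⟨z, hz, hzy⟩
        exact hy (Subtype.ext hzy ▸ hz)
    rw [h]
    exact hY.isClosedEmbedding_subtypeVal.isClosedMap _ hK.compl.1

variable [CompactSpace X] [T2Space X]

lemma sep_pt {Y Z : Set X} (hY : IsClosed Y) (hZ : IsClosed Z) {a b : X} (ha : a ∈ Y) (hb : b ∈ Z)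
    (h : ∀ C D : Set X, IsClosed C → IsClosed D → IsPreconnected C → IsPreconnected D →
      a ∈ C → b ∈ D → C ⊆ Y → D ⊆ Z → ¬ (C ∩ D).Nonempty) :
    ∃ K L : Set X, Cl Y K ∧ Cl Z L ∧ a ∈ K ∧ b ∈ L ∧ Disjoint K L := by
  have : CompactSpace Y := isCompact_iff_compactSpace.1 hY.isCompact
  have : CompactSpace Z := isCompact_iff_compactSpace.1 hZ.isCompact
  by_contra hcon
  push Not at hcon
  let ι := {s : Set Y // IsClopen s ∧ (⟨a, ha⟩ : Y) ∈ s} × {s : Set Z // IsClopen s ∧ (⟨b, hb⟩ : Z) ∈ s}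
  let F : ι → Set X := fun i => ((↑) '' i.1.1 : Set X) ∩ ((↑) '' i.2.1 : Set X)
  have hFc : ∀ i, IsClosed (F i) := fun i =>
    (Cl.image hY i.1.2.1).c1.inter (Cl.image hZ i.2.2.1).c1
  have : Nonempty ι := ⟨⟨⟨univ, isClopen_univ, mem_univ _⟩, ⟨univ, isClopen_univ, mem_univ _⟩⟩⟩
  obtain ⟨x, hx⟩ : (⋂ i, F i).Nonempty := by
    apply IsCompact.nonempty_iInter_of_directed_nonempty_isCompact_isClosed
    · intro i j
      refine ⟨⟨⟨i.1.1 ∩ j.1.1, i.1.2.1.inter j.1.2.1, i.1.2.2, j.1.2.2⟩,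
        ⟨i.2.1 ∩ j.2.1, i.2.2.1.inter j.2.2.1, i.2.2.2, j.2.2.2⟩⟩, ?_, ?_⟩
      · exact inter_subset_inter (image_mono inter_subset_left) (image_mono inter_subset_left)
      · exact inter_subset_inter (image_mono inter_subset_right) (image_mono inter_subset_right)
    · intro i
      have := hcon _ _ (Cl.image hY i.1.2.1) (Cl.image hZ i.2.2.1) ⟨_, i.1.2.2, rfl⟩
        ⟨_, i.2.2.2, rfl⟩
      exact Set.not_disjoint_iff_nonempty_inter.1 this
    · exact fun i => (hFc i).isCompact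
    · exact hFc
  have hxY : x ∈ Y := by
    have := mem_iInter.1 hx ⟨⟨univ, isClopen_univ, mem_univ _⟩, ⟨univ, isClopen_univ, mem_univ _⟩⟩
    obtain ⟨⟨y, -, rfl⟩, -⟩ := this
    exact y.2
  have hxZ : x ∈ Z := by
    have := mem_iInter.1 hx ⟨⟨univ, isClopen_univ, mem_univ _⟩, ⟨univ, isClopen_univ, mem_univ _⟩⟩
    obtain ⟨-, ⟨y, -, rfl⟩⟩ := this
    exact y.2
  have h1 : (⟨x, hxY⟩ : Y) ∈ connectedComponent (⟨a, ha⟩ : Y) := by
    rw [connectedComponent_eq_iInter_isClopen]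
    refine mem_iInter.2 fun s => ?_
    have := mem_iInter.1 hx ⟨s, ⟨univ, isClopen_univ, mem_univ _⟩⟩
    obtain ⟨⟨y, hy, hyx⟩, -⟩ := this
    have : y = ⟨x, hxY⟩ := Subtype.ext hyx
    exact this ▸ hy
  have h2 : (⟨x, hxZ⟩ : Z) ∈ connectedComponent (⟨b, hb⟩ : Z) := by
    rw [connectedComponent_eq_iInter_isClopen]
    refine mem_iInter.2 fun s => ?_
    have := mem_iInter.1 hx ⟨⟨univ, isClopen_univ, mem_univ _⟩, s⟩
    obtain ⟨-, ⟨y, hy, hyx⟩⟩ := this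
    have : y = ⟨x, hxZ⟩ := Subtype.ext hyx
    exact this ▸ hy
  refine h ((↑) '' connectedComponent (⟨a, ha⟩ : Y)) ((↑) '' connectedComponent (⟨b, hb⟩ : Z))
    (hY.isClosedEmbedding_subtypeVal.isClosedMap _ isClosed_connectedComponent)
    (hZ.isClosedEmbedding_subtypeVal.isClosedMap _ isClosed_connectedComponent)
    (isPreconnected_connectedComponent.image _ continuous_subtype_val.continuousOn)
    (isPreconnected_connectedComponent.image _ continuous_subtype_val.continuousOn)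
    ⟨_, mem_connectedComponent, rfl⟩ ⟨_, mem_connectedComponent, rfl⟩ ?_ ?_ ?_
  · rintro _ ⟨y, -, rfl⟩; exact y.2
  · rintro _ ⟨y, -, rfl⟩; exact y.2
  · exact ⟨x, ⟨_, h1, rfl⟩, ⟨_, h2, rfl⟩⟩

lemma sep_sets {Y Z A B : Set X} (hY : IsClosed Y) (hZ : IsClosed Z) (hA : IsClosed A)
    (hB : IsClosed B) (hAY : A ⊆ Y) (hBZ : B ⊆ Z)
    (h : ∀ a ∈ A, ∀ b ∈ B, ∃ K L : Set X, Cl Y K ∧ Cl Z L ∧ a ∈ K ∧ b ∈ L ∧ Disjoint K L) :
    ∃ K L : Set X, Cl Y K ∧ Cl Z L ∧ A ⊆ K ∧ B ⊆ L ∧ Disjoint K L := by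
  have h1 : ∀ a ∈ A, ∃ K L : Set X, Cl Y K ∧ Cl Z L ∧ a ∈ K ∧ B ⊆ L ∧ Disjoint K L := by
    intro a ha
    refine hB.isCompact.induction_on
      (p := fun S => ∃ K L : Set X, Cl Y K ∧ Cl Z L ∧ a ∈ K ∧ S ⊆ L ∧ Disjoint K L) ?_ ?_ ?_ ?_
    · exact ⟨Y, ∅, Cl.self hY, Cl.empty hZ, hAY ha, subset_rfl, disjoint_bot_right⟩
    · rintro s t hst ⟨K, L, h1, h2, h3, h4, h5⟩
      exact ⟨K, L, h1, h2, h3, hst.trans h4, h5⟩
    · rintro s t ⟨K, L, h1, h2, h3, h4, h5⟩ ⟨K', L', h1', h2', h3', h4', h5'⟩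
      exact ⟨K ∩ K', L ∪ L', h1.inter h1', h2.union h2', ⟨h3, h3'⟩,
        union_subset_union h4 h4', Disjoint.sup_right (h5.mono_left inter_subset_left)
          (h5'.mono_left inter_subset_right)⟩
    · intro b hb
      obtain ⟨K, L, h1, h2, h3, h4, h5⟩ := h a ha b hb
      refine ⟨B ∩ (Z \ L)ᶜ, ?_, K, L, h1, h2, h3, ?_, h5⟩
      · rw [inter_comm]
        exact mem_nhdsWithin.2 ⟨(Z \ L)ᶜ, h2.c2.isOpen_compl, fun hh => hh.2 h4, subset_rfl⟩
      · rintro y ⟨hy1, hy2⟩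
        by_contra hcon
        exact hy2 ⟨hBZ hy1, hcon⟩
  refine hA.isCompact.induction_on
      (p := fun S => ∃ K L : Set X, Cl Y K ∧ Cl Z L ∧ S ⊆ K ∧ B ⊆ L ∧ Disjoint K L) ?_ ?_ ?_ ?_
  · exact ⟨∅, Z, Cl.empty hY, Cl.self hZ, subset_rfl, hBZ, disjoint_bot_left⟩
  · rintro s t hst ⟨K, L, h1, h2, h3, h4, h5⟩
    exact ⟨K, L, h1, h2, hst.trans h3, h4, h5⟩
  · rintro s t ⟨K, L, h1, h2, h3, h4, h5⟩ ⟨K', L', h1', h2', h3', h4', h5'⟩
    exact ⟨K ∪ K', L ∩ L', h1.union h1', h2.inter h2', union_subset_union h3 h3',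
      subset_inter h4 h4', Disjoint.sup_left (h5.mono_right inter_subset_left)
          (h5'.mono_right inter_subset_right)⟩
  · intro a ha
    obtain ⟨K, L, h1, h2, h3, h4, h5⟩ := h1 a ha
    refine ⟨A ∩ (Y \ K)ᶜ, ?_, K, L, h1, h2, ?_, h4, h5⟩
    · rw [inter_comm]
      exact mem_nhdsWithin.2 ⟨(Y \ K)ᶜ, h1.c2.isOpen_compl, fun hh => hh.2 h3, subset_rfl⟩
    · rintro y ⟨hy1, hy2⟩
      by_contra hcon
      exact hy2 ⟨hAY hy1, hcon⟩

/-- (N) Krasinkiewicz-Minc. -/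
theorem km (hHI : HI X) {A B U V : Set X} (hA : IsClosed A) (hB : IsClosed B)
    (hAB : Disjoint A B) (hU : IsOpen U) (hV : IsOpen V) (hAU : A ⊆ U) (hBV : B ⊆ V) :
    ∃ X0 X1 X2 : Set X, IsClosed X0 ∧ IsClosed X1 ∧ IsClosed X2 ∧ X0 ∪ X1 ∪ X2 = univ ∧
      A ⊆ X0 ∧ B ⊆ X2 ∧ Disjoint X0 X2 ∧ X0 ∩ X1 ⊆ V ∧ X1 ∩ X2 ⊆ U := by
  -- shrink
  set U' := U ∩ Bᶜ with hU'
  set V' := V ∩ Aᶜ with hV'
  have hU'o : IsOpen U' := hU.inter hB.isOpen_compl
  have hV'o : IsOpen V' := hV.inter hA.isOpen_compl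
  have hAU' : A ⊆ U' := fun x hx => ⟨hAU hx, fun hB' => Set.disjoint_left.1 hAB hx hB'⟩
  have hBV' : B ⊆ V' := fun x hx => ⟨hBV hx, fun hA' => Set.disjoint_left.1 hAB hA' hx⟩
  set Y := V'ᶜ with hYdef
  set Z := U'ᶜ with hZdef
  have hY : IsClosed Y := hV'o.isClosed_compl
  have hZ : IsClosed Z := hU'o.isClosed_compl
  have hAY : A ⊆ Y := fun x hx hV => hV.2 hx
  have hBZ : B ⊆ Z := fun x hx hU => hU.2 hx
  obtain ⟨Y0, Z2, hY0, hZ2, hAY0, hBZ2, hdis⟩ := sep_sets hY hZ hA hB hAY hBZ (by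
    intro a ha b hb
    refine sep_pt hY hZ (hAY ha) (hBZ hb) ?_
    intro C D hC hD hCp hDp haC hbD hCY hDZ hne
    rcases hHI C D hC hD hCp hDp hne with h | h
    · exact hDZ (h haC) (hAU' ha)
    · exact hCY (h hbD) (hBV' hb))
  obtain ⟨W0, hW0, hYW0, hclW0⟩ := normal_exists_closure_subset hY0.c1
    ((hY0.c2.union hZ2.c1).isOpen_compl) (by
      intro x hx hx'
      rcases hx' with h | h
      · exact h.2 hx
      · exact Set.disjoint_left.1 hdis hx h)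
  obtain ⟨W2, hW2, hZW2, hclW2⟩ := normal_exists_closure_subset hZ2.c1
    ((hZ2.c2.union isClosed_closure).isOpen_compl (s := (Z \ Z2) ∪ closure W0)) (by
      intro x hx hx'
      rcases hx' with h | h
      · exact h.2 hx
      · exact hclW0 h (Or.inr hx))
  refine ⟨closure W0, (W0 ∪ W2)ᶜ, closure W2, isClosed_closure, (hW0.union hW2).isClosed_compl,
    isClosed_closure, ?_, ?_, ?_, ?_, ?_, ?_⟩
  · ext x
    simp only [mem_union, mem_compl_iff, mem_univ, iff_true]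
    by_cases h0 : x ∈ W0
    · exact Or.inl (Or.inl (subset_closure h0))
    · by_cases h2 : x ∈ W2
      · exact Or.inr (subset_closure h2)
      · exact Or.inl (Or.inr fun h => h.elim h0 h2)
  · exact (hAY0.trans hYW0).trans subset_closure
  · exact (hBZ2.trans hZW2).trans subset_closure
  · rw [Set.disjoint_left]
    intro x h0 h2
    exact hclW2 h2 (Or.inr h0)
  · rintro x ⟨h0, h1⟩
    by_contra hxV
    have hxY : x ∈ Y := fun hh => hxV hh.1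
    by_cases hx : x ∈ Y0
    · exact h1 (Or.inl (hYW0 hx))
    · exact hclW0 h0 (Or.inl ⟨hxY, hx⟩)
  · rintro x ⟨h1, h2⟩
    by_contra hxU
    have hxZ : x ∈ Z := fun hh => hxU hh.1
    by_cases hx : x ∈ Z2
    · exact h1 (Or.inr (hZW2 hx))
    · exact hclW2 h2 (Or.inl ⟨hxZ, hx⟩)

end Pool.Agent.Helper886.KM
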