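import Pool.Agent.Helper886.KM.N

set_option autoImplicit false
set_option linter.unusedSectionVars false

open Set Topology Filter

namespace Pool.Agent.Helper886.KM

/-- the N-shaped fold of the real line: up to `be`, down to `al`, up again -/
noncomputable def Fold (al be u : ℝ) : ℝ :=
  if u ≤ be then u else if u ≤ 2 * be - al then 2 * be - u else u - 2 * (be - al)

/-- the end fold: up to `be`, then down -/
noncomputable def EFold (be u : ℝ) : ℝ := if u ≤ be then u else 2 * be - u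

lemma EFold_eq (be u : ℝ) : EFold be u = min u (2 * be - u) := by
  unfold EFold
  split_ifs with h
  · rw [min_eq_left]; linarith
  · rw [min_eq_right]; linarith

lemma continuous_EFold (be : ℝ) : Continuous (EFold be) := by
  have : EFold be = fun u => min u (2 * be - u) := funext (EFold_eq be)
  rw [this]; fun_prop

lemma Fold_eq {al be : ℝ} (h : al ≤ be) (u : ℝ) :
    Fold al be u = max (min u (2 * be - u)) (u - 2 * (be - al)) := by
  unfold Fold
  split_ifs with h1 h2
  · rw [min_eq_left (by linarith), max_eq_left (by linarith)]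
  · rw [min_eq_right (by linarith), max_eq_left (by linarith)]
  · rw [min_eq_right (by linarith), max_eq_right (by linarith)]

lemma continuous_Fold {al be : ℝ} (h : al ≤ be) : Continuous (Fold al be) := by
  have : Fold al be = fun u => max (min u (2 * be - u)) (u - 2 * (be - al)) := funext (Fold_eq h)
  rw [this]; fun_prop

/-- a reparametrisation close to the identity, constant near `al` and `be` -/
lemma exists_rep {al be dl : ℝ} (hab : al < be) (hdl : 0 < dl) :
    ∃ (r : ℝ → ℝ) (e : ℝ), Continuous r ∧ 0 < e ∧ (∀ t, t ≤ al → r t = t) ∧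
      (∀ t, be ≤ t → r t = t) ∧ (∀ t, al ≤ t → t ≤ be → al ≤ r t ∧ r t ≤ be) ∧
      (∀ t, |r t - t| ≤ dl) ∧ (∀ t, t < al + e → r t ≤ al) ∧ (∀ t, be - e < t → be ≤ r t) := by
  set e : ℝ := min dl ((be - al) / 3) with he
  have he0 : 0 < e := lt_min hdl (by linarith)
  have he1 : e ≤ dl := min_le_left _ _
  have he2 : e ≤ (be - al) / 3 := min_le_right _ _
  have hden : 0 < be - al - 2 * e := by linarith
  obtain ⟨c, hcm, hc1⟩ : ∃ c : ℝ, c * (be - al - 2 * e) = be - al ∧ 1 ≤ c :=
    ⟨(be - al) / (be - al - 2 * e), div_mul_cancel₀ _ hden.ne', by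
      rw [le_div_iff₀ hden]; linarith⟩
  let L : ℝ → ℝ := fun t => al + (t - al - e) * c
  have hL : ∀ t, L t = al + (t - al - e) * c := fun t => rfl
  let r : ℝ → ℝ := fun t => max al (min be (L t)) + min (t - al) 0 + max (t - be) 0
  have hr : ∀ t, r t = max al (min be (L t)) + min (t - al) 0 + max (t - be) 0 := fun t => rfl
  have hlow : ∀ t, t ≤ al + e → L t ≤ al := by
    intro t ht
    rw [hL]; nlinarith
  have hhigh : ∀ t, be - e ≤ t → be ≤ L t := by
    intro t ht
    rw [hL]; nlinarith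
  have h1 : ∀ t, t ≤ al → r t = t := by
    intro t ht
    rw [hr, min_eq_right ((hlow t (by linarith)).trans hab.le), max_eq_left (hlow t (by linarith)),
      min_eq_left (by linarith), max_eq_right (by linarith)]
    ring
  have h2 : ∀ t, be ≤ t → r t = t := by
    intro t ht
    rw [hr, min_eq_left (hhigh t (by linarith)), max_eq_right hab.le,
      min_eq_right (by linarith), max_eq_left (by linarith)]
    ring
  have hmid : ∀ t, al ≤ t → t ≤ be → r t = max al (min be (L t)) := by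
    intro t h1 h2
    rw [hr, min_eq_right (a := t - al) (b := 0) (by linarith),
      max_eq_right (a := t - be) (b := 0) (by linarith)]
    ring
  refine ⟨r, e, ?_, he0, h1, h2, ?_, ?_, ?_, ?_⟩
  · show Continuous fun t => max al (min be (al + (t - al - e) * c)) + min (t - al) 0 + max (t - be) 0
    fun_prop
  · intro t ht1 ht2
    rw [hmid t ht1 ht2]
    exact ⟨le_max_left _ _, max_le hab.le (min_le_left _ _)⟩
  · intro t
    rcases le_total t al with h | h
    · rw [h1 t h, sub_self, abs_zero]; exact hdl.le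
    rcases le_total be t with h' | h'
    · rw [h2 t h', sub_self, abs_zero]; exact hdl.le
    rw [hmid t h h']
    rcases le_total t (al + e) with h3 | h3
    · rw [min_eq_right ((hlow t h3).trans hab.le), max_eq_left (hlow t h3), abs_le]
      constructor <;> linarith
    rcases le_total (be - e) t with h4 | h4
    · rw [min_eq_left (hhigh t h4), max_eq_right hab.le, abs_le]
      constructor <;> linarith
    · have e1 : L t - t + e = (t - al - e) * (c - 1) := by rw [hL]; ring
      have e2 : e - (L t - t) = (be - e - t) * (c - 1) := by rw [hL]; linear_combination (-1 : ℝ) * hcm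
      have e3 : 0 ≤ (t - al - e) * (c - 1) := mul_nonneg (by linarith) (by linarith)
      have e4 : 0 ≤ (be - e - t) * (c - 1) := mul_nonneg (by linarith) (by linarith)
      rw [abs_le]
      constructor
      · have : L t - e ≤ L t := by linarith
        have h5 : t - e ≤ min be (L t) := le_min (by linarith) (by linarith)
        have := le_max_right al (min be (L t))
        linarith
      · have h5 : max al (min be (L t)) ≤ t + e := max_le (by linarith) ((min_le_right _ _).trans (by linarith))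
        linarith
  · intro t ht
    rcases le_total t al with h | h
    · rw [h1 t h]; exact h
    · rcases le_total be t with h' | h'
      · exfalso; linarith
      · rw [hmid t h h', min_eq_right ((hlow t ht.le).trans hab.le), max_eq_left (hlow t ht.le)]
  · intro t ht
    rcases le_total be t with h | h
    · rw [h2 t h]; exact h
    · rcases le_total t al with h' | h'
      · exfalso; linarith
      · rw [hmid t h' h, min_eq_left (hhigh t ht.le)]
        exact le_max_right _ _

variable {X : Type*} [TopologicalSpace X]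

lemma glue3 {X0 X1 X2 : Set X} (h0 : IsClosed X0) (h1 : IsClosed X1) (h2 : IsClosed X2)
    (hcov : X0 ∪ X1 ∪ X2 = univ) (hd : Disjoint X0 X2) (f0 f1 f2 : C(X, ℝ))
    (h01 : ∀ p ∈ X0, p ∈ X1 → f0 p = f1 p) (h12 : ∀ p ∈ X1, p ∈ X2 → f1 p = f2 p) :
    ∃ g : C(X, ℝ), (∀ p ∈ X0, g p = f0 p) ∧ (∀ p ∈ X1, g p = f1 p) ∧ (∀ p ∈ X2, g p = f2 p) := by
  classical
  let g : X → ℝ := fun p => if p ∈ X0 then f0 p else if p ∈ X2 then f2 p else f1 p
  have g0 : ∀ p ∈ X0, g p = f0 p := fun p hp => if_pos hp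
  have g2 : ∀ p ∈ X2, g p = f2 p := by
    intro p hp
    have : p ∉ X0 := fun h => Set.disjoint_left.1 hd h hp
    show (if p ∈ X0 then f0 p else if p ∈ X2 then f2 p else f1 p) = _
    rw [if_neg this, if_pos hp]
  have g1 : ∀ p ∈ X1, g p = f1 p := by
    intro p hp
    by_cases hp0 : p ∈ X0
    · rw [g0 p hp0, h01 p hp0 hp]
    · by_cases hp2 : p ∈ X2
      · rw [g2 p hp2, h12 p hp hp2]
      · show (if p ∈ X0 then f0 p else if p ∈ X2 then f2 p else f1 p) = _
        rw [if_neg hp0, if_neg hp2]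
  have hg : Continuous g := by
    rw [continuous_iff_isClosed]
    intro T hT
    have : g ⁻¹' T = (X0 ∩ f0 ⁻¹' T) ∪ (X1 ∩ f1 ⁻¹' T) ∪ (X2 ∩ f2 ⁻¹' T) := by
      ext p
      constructor
      · intro hp
        have : p ∈ X0 ∪ X1 ∪ X2 := by rw [hcov]; trivial
        rcases this with (h | h) | h
        · exact Or.inl (Or.inl ⟨h, by have := g0 p h; show f0 p ∈ T; rw [← this]; exact hp⟩)
        · exact Or.inl (Or.inr ⟨h, by have := g1 p h; show f1 p ∈ T; rw [← this]; exact hp⟩)
        · exact Or.inr ⟨h, by have := g2 p h; show f2 p ∈ T; rw [← this]; exact hp⟩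
      · rintro ((⟨h, h'⟩ | ⟨h, h'⟩) | ⟨h, h'⟩)
        · show g p ∈ T; rw [g0 p h]; exact h'
        · show g p ∈ T; rw [g1 p h]; exact h'
        · show g p ∈ T; rw [g2 p h]; exact h'
    rw [this]
    exact ((h0.inter (hT.preimage f0.continuous)).union (h1.inter (hT.preimage f1.continuous))).union
      (h2.inter (hT.preimage f2.continuous))
  exact ⟨⟨g, hg⟩, g0, g1, g2⟩

variable [CompactSpace X] [T2Space X]

/-- the common core of the two fold liftings -/
lemma fold_core (hHI : HI X) (φ : C(X, ℝ)) {al be dl : ℝ} (hab : al < be) (hdl : 0 < dl) :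
    ∃ (φ' : C(X, ℝ)) (X0 X1 X2 : Set X), IsClosed X0 ∧ IsClosed X1 ∧ IsClosed X2 ∧
      X0 ∪ X1 ∪ X2 = univ ∧ Disjoint X0 X2 ∧ (∀ p, φ p ≤ al → p ∈ X0 ∧ φ' p = φ p) ∧
      (∀ p, be ≤ φ p → p ∈ X2 ∧ φ' p = φ p) ∧ (∀ p, |φ' p - φ p| ≤ dl) ∧
      (∀ p ∈ X0, φ' p ≤ be ∧ min (φ p) al ≤ φ' p) ∧ (∀ p ∈ X1, al ≤ φ' p ∧ φ' p ≤ be) ∧
      (∀ p ∈ X2, al ≤ φ' p ∧ φ' p ≤ max (φ p) be) ∧ (∀ p ∈ X0, p ∈ X1 → φ' p = be) ∧
      (∀ p ∈ X1, p ∈ X2 → φ' p = al) := by
  obtain ⟨r, e, hrc, he, r1, r2, r3, r4, r5, r6⟩ := exists_rep hab hdl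
  obtain ⟨X0, X1, X2, c0, c1, c2, hcov, hA, hB, hd, h01, h12⟩ := km hHI
    (A := {p | φ p ≤ al}) (B := {p | be ≤ φ p}) (U := {p | φ p < al + e}) (V := {p | be - e < φ p})
    (isClosed_le φ.continuous continuous_const) (isClosed_le continuous_const φ.continuous)
    (by rw [Set.disjoint_left]; intro p h1 h2; exact absurd (h1 : φ p ≤ al) (not_le.2 (hab.trans_le (h2 : be ≤ φ p))))
    (isOpen_lt φ.continuous continuous_const) (isOpen_lt continuous_const φ.continuous)
    (fun p (hp : φ p ≤ al) => show φ p < al + e by linarith)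
    (fun p (hp : be ≤ φ p) => show be - e < φ p by linarith)
  let φ' : C(X, ℝ) := ⟨fun p => r (φ p), hrc.comp φ.continuous⟩
  have hφ' : ∀ p, φ' p = r (φ p) := fun p => rfl
  have k0 : ∀ p ∈ X0, φ p < be := by
    intro p hp
    by_contra hcon
    exact Set.disjoint_left.1 hd hp (hB (not_lt.1 hcon))
  have k2 : ∀ p ∈ X2, al < φ p := by
    intro p hp
    by_contra hcon
    exact Set.disjoint_left.1 hd (hA (not_lt.1 hcon)) hp
  have k1 : ∀ p ∈ X1, al < φ p ∧ φ p < be := by
    intro p hp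
    constructor
    · by_contra hcon
      have h : be - e < φ p := h01 ⟨hA (not_lt.1 hcon), hp⟩
      have h5 := r6 _ h
      rw [r1 _ (not_lt.1 hcon)] at h5
      linarith
    · by_contra hcon
      have h : φ p < al + e := h12 ⟨hp, hB (not_lt.1 hcon)⟩
      have h5 := r5 _ h
      rw [r2 _ (not_lt.1 hcon)] at h5
      linarith
  have m0 : ∀ p ∈ X0, φ' p ≤ be ∧ min (φ p) al ≤ φ' p := by
    intro p hp
    rw [hφ']
    rcases le_total (φ p) al with h | h
    · rw [r1 _ h]; exact ⟨(k0 p hp).le, min_le_left _ _⟩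
    · have := r3 _ h (k0 p hp).le
      exact ⟨this.2, (min_le_right _ _).trans this.1⟩
  have m1 : ∀ p ∈ X1, al ≤ φ' p ∧ φ' p ≤ be := by
    intro p hp
    exact r3 _ (k1 p hp).1.le (k1 p hp).2.le
  have m2 : ∀ p ∈ X2, al ≤ φ' p ∧ φ' p ≤ max (φ p) be := by
    intro p hp
    rw [hφ']
    rcases le_total be (φ p) with h | h
    · rw [r2 _ h]; exact ⟨(k2 p hp).le, le_max_left _ _⟩
    · have := r3 _ (k2 p hp).le h
      exact ⟨this.1, this.2.trans (le_max_right _ _)⟩
  refine ⟨φ', X0, X1, X2, c0, c1, c2, hcov, hd, fun p hp => ⟨hA hp, r1 _ hp⟩,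
    fun p hp => ⟨hB hp, r2 _ hp⟩, fun p => r4 _, m0, m1, m2, ?_, ?_⟩
  · intro p hp0 hp1
    exact le_antisymm (m0 p hp0).1 (r6 _ (h01 ⟨hp0, hp1⟩))
  · intro p hp1 hp2
    exact le_antisymm (r5 _ (h12 ⟨hp1, hp2⟩)) (m2 p hp2).1

/-- (N2) lifting through the N-shaped fold -/
theorem nfold (hHI : HI X) (φ : C(X, ℝ)) {al be dl : ℝ} (hab : al < be) (hdl : 0 < dl) :
    ∃ g : C(X, ℝ), (∀ p, |Fold al be (g p) - φ p| ≤ dl) ∧ (∀ p, φ p ≤ al → g p = φ p) ∧
      (∀ p, be ≤ φ p → g p = φ p + 2 * (be - al)) ∧ (∀ p, min (φ p) al ≤ g p) ∧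
      (∀ p, g p ≤ max (φ p) be + 2 * (be - al)) := by
  obtain ⟨φ', X0, X1, X2, c0, c1, c2, hcov, hd, hA, hB, hcl, m0, m1, m2, h01, h12⟩ :=
    fold_core hHI φ hab hdl
  obtain ⟨g, g0, g1, g2⟩ := glue3 c0 c1 c2 hcov hd φ' ⟨fun p => 2 * be - φ' p, by fun_prop⟩
    ⟨fun p => φ' p + 2 * (be - al), by fun_prop⟩
    (by intro p hp0 hp1; show φ' p = 2 * be - φ' p; rw [h01 p hp0 hp1]; ring)
    (by intro p hp1 hp2; show 2 * be - φ' p = φ' p + 2 * (be - al); rw [h12 p hp1 hp2]; ring)
  replace g1 : ∀ p ∈ X1, g p = 2 * be - φ' p := g1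
  replace g2 : ∀ p ∈ X2, g p = φ' p + 2 * (be - al) := g2
  have key : ∀ p, Fold al be (g p) = φ' p := by
    intro p
    have : p ∈ X0 ∪ X1 ∪ X2 := by rw [hcov]; trivial
    rw [Fold_eq hab.le]
    rcases this with (h | h) | h
    · rw [g0 p h]
      have := m0 p h
      rw [min_eq_left (by linarith), max_eq_left (by linarith)]
    · rw [g1 p h]
      have := m1 p h
      rw [min_eq_right (by linarith), max_eq_left (by linarith)]
      ring
    · rw [g2 p h]
      have := m2 p h
      rw [min_eq_right (by linarith), max_eq_right (by linarith)]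
      ring
  refine ⟨g, ?_, ?_, ?_, ?_, ?_⟩
  · intro p; rw [key]; exact hcl p
  · intro p hp; rw [g0 p (hA p hp).1, (hA p hp).2]
  · intro p hp; rw [g2 p (hB p hp).1, (hB p hp).2]
  · intro p
    have : p ∈ X0 ∪ X1 ∪ X2 := by rw [hcov]; trivial
    rcases this with (h | h) | h
    · rw [g0 p h]; exact (m0 p h).2
    · rw [g1 p h]; have := m1 p h
      exact (min_le_right _ _).trans (by linarith)
    · rw [g2 p h]; have := m2 p h
      exact (min_le_right _ _).trans (by linarith)
  · intro p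
    have : p ∈ X0 ∪ X1 ∪ X2 := by rw [hcov]; trivial
    have hmx := le_max_right (φ p) be
    rcases this with (h | h) | h
    · rw [g0 p h]; have := m0 p h; linarith
    · rw [g1 p h]; have := m1 p h; linarith
    · rw [g2 p h]; have := m2 p h; linarith

/-- (N3) lifting through the end fold -/
theorem endfold [PreconnectedSpace X] (hHI : HI X) (φ : C(X, ℝ)) {al be dl : ℝ} (hab : al < be)
    (hdl : 0 < dl) (hle : ∀ p, φ p ≤ be) (hbe : ∃ p, φ p = be) (hal : ∃ p, φ p ≤ al) :
    ∃ g : C(X, ℝ), (∀ p, |EFold be (g p) - φ p| ≤ dl) ∧ (∀ p, φ p ≤ al → g p = φ p) ∧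
      (∀ p, min (φ p) al ≤ g p) ∧ (∀ p, g p ≤ 2 * be - al) ∧ (∃ p, g p = 2 * be - al) := by
  obtain ⟨φ', X0, X1, X2, c0, c1, c2, hcov, hd, hA, hB, hcl, m0, m1, m2, h01, h12⟩ :=
    fold_core hHI φ hab hdl
  obtain ⟨g, g0, g1, g2⟩ := glue3 c0 c1 c2 hcov hd φ' ⟨fun p => 2 * be - φ' p, by fun_prop⟩
    ⟨fun p => 2 * be - φ' p, by fun_prop⟩
    (by intro p hp0 hp1; show φ' p = 2 * be - φ' p; rw [h01 p hp0 hp1]; ring)
    (by intro p hp1 hp2; rfl)
  replace g1 : ∀ p ∈ X1, g p = 2 * be - φ' p := g1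
  replace g2 : ∀ p ∈ X2, g p = 2 * be - φ' p := g2
  have m2' : ∀ p ∈ X2, φ' p ≤ be := fun p hp => (m2 p hp).2.trans (max_le (hle p) le_rfl)
  have key : ∀ p, EFold be (g p) = φ' p := by
    intro p
    have : p ∈ X0 ∪ X1 ∪ X2 := by rw [hcov]; trivial
    rw [EFold_eq]
    rcases this with (h | h) | h
    · rw [g0 p h]
      have := m0 p h
      rw [min_eq_left (by linarith)]
    · rw [g1 p h]
      have := m1 p h
      rw [min_eq_right (by linarith)]
      ring
    · rw [g2 p h]
      have := m2' p h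
      rw [min_eq_right (by linarith)]
      ring
  refine ⟨g, ?_, ?_, ?_, ?_, ?_⟩
  · intro p; rw [key]; exact hcl p
  · intro p hp; rw [g0 p (hA p hp).1, (hA p hp).2]
  · intro p
    have : p ∈ X0 ∪ X1 ∪ X2 := by rw [hcov]; trivial
    rcases this with (h | h) | h
    · rw [g0 p h]; exact (m0 p h).2
    · rw [g1 p h]; have := m1 p h
      exact (min_le_right _ _).trans (by linarith)
    · rw [g2 p h]; have := m2' p h
      exact (min_le_right _ _).trans (by linarith)
  · intro p
    have : p ∈ X0 ∪ X1 ∪ X2 := by rw [hcov]; trivial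
    rcases this with (h | h) | h
    · rw [g0 p h]; have := m0 p h; linarith
    · rw [g1 p h]; have := m1 p h; linarith
    · rw [g2 p h]; have := m2 p h; linarith
  · obtain ⟨b, hb⟩ := hbe
    obtain ⟨a, ha⟩ := hal
    have hb2 : b ∈ X2 := (hB b hb.ge).1
    have ha0 : a ∈ X0 := (hA a ha).1
    have hpre : IsPreconnected (univ : Set X) := isPreconnected_univ
    have hne := isPreconnected_closed_iff.1 hpre (X0 ∪ X1) X2 (c0.union c1) c2 (by rw [hcov])
      ⟨a, trivial, Or.inl ha0⟩ ⟨b, trivial, hb2⟩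
    obtain ⟨q, -, hq01, hq2⟩ := hne
    have hq1 : q ∈ X1 := by
      rcases hq01 with h | h
      · exact absurd hq2 (fun h2 => Set.disjoint_left.1 hd h h2)
      · exact h
    exact ⟨q, by rw [g2 q hq2, h12 q hq1 hq2]⟩

end Pool.Agent.Helper886.KM
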